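import Pool.Agent.H73R2.Et.Main

set_option autoImplicit false

namespace Pool.Agent.Y942.ET

open Pool.Agent.H73R2.Et
open Finset Classical

theorem strq (k : ℕ) (hk : 1 ≤ k) : ∀ (L : Type) [Fintype L] (R : L → L → Prop) (W : L → Prop),
    TriG k R W → Half R (10 * k + 3) → ∃ (CA CB : Finset L) (κ : L → ℕ), Mrg R W CA CB κ := by
  intro L _ R W hT ⟨z, y, hH⟩
  set N := 10 * k + 3 with hN
  have hc : Cls k R := by
    have := hT.cls ∅ (by simp)
    rwa [res_empty] at this
  obtain ⟨U1, hU1, hU1'⟩ := exists_U hk hc hH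
  have hcf : Cls k (fun a b => R b a) := ⟨hc.2, hc.1⟩
  have hHf : ∀ i j, i < N → j < N →
      ((fun a b => R b a) ((fun i => y (N - 1 - i)) i) ((fun j => z (N - 1 - j)) j) ↔ j ≤ i) := by
    intro i j hi hj
    exact (hH (N - 1 - j) (N - 1 - i) (by omega) (by omega)).trans (by omega)
  obtain ⟨U2, hU2, hU2'⟩ := exists_U hk hcf hHf
  -- consequences
  have c1 : ∀ q b i, q ∉ U1 → q < N → ¬ R (z q) b → i ≤ q → ¬ R (z i) b := by
    intro q b i hq hqN hqb hi hib
    rcases Nat.lt_or_ge i q with h | h
    · exact hq (hU1' b ⟨i, q, h, hqN, hib, hqb⟩ (by simp [PP, hqN, hqb]))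
    · have : i = q := by omega
      exact hqb (this ▸ hib)
  have c2 : ∀ o a j, N - 1 - o ∉ U2 → o < N → ¬ R a (y o) → o ≤ j → j < N → ¬ R a (y j) := by
    intro o a j ho hoN hoa hj hjN hja
    rcases Nat.lt_or_ge o j with h | h
    · refine ho (hU2' a ⟨N - 1 - j, N - 1 - o, by omega, by omega, ?_, ?_⟩ ?_)
      · have : N - 1 - (N - 1 - j) = j := by omega
        simp only [this]; exact hja
      · have : N - 1 - (N - 1 - o) = o := by omega
        simp only [this]; exact hoa
      · have : N - 1 - (N - 1 - o) = o := by omega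
        simp only [PP, mem_filter, mem_range, this]
        exact ⟨by omega, hoa⟩
    · have : j = o := by omega
      exact hoa (this ▸ hja)
  -- indices
  obtain ⟨o', ho1, ho2, ho3⟩ := exists_notin hU2 (N - 1 - 2 * k)
  obtain ⟨p, hp1, hp2, hp3⟩ := exists_notin hU1 (3 * k)
  obtain ⟨q, hq1, hq2, hq3⟩ := exists_notin hU1 (5 * k + 2)
  obtain ⟨r, hr1, hr2, hr3⟩ := exists_notin hU1 (8 * k + 2)
  set o := N - 1 - o' with ho
  have ho3' : N - 1 - o ∉ U2 := by
    have : N - 1 - o = o' := by omega
    rwa [this]
  set CB : Finset L := univ.filter fun b => R (z q) b ∧ ¬ R (z p) b with hCB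
  set CA : Finset L := univ.filter fun a => (∀ b, R a b → R (z q) b) ∧ ∃ b ∈ CB, R a b with hCA
  have memB : ∀ b, b ∈ CB ↔ R (z q) b ∧ ¬ R (z p) b := fun b => by simp [hCB]
  have memA : ∀ a, a ∈ CA ↔ (∀ b, R a b → R (z q) b) ∧ ∃ b ∈ CB, R a b := fun a => by
    rw [hCA, mem_filter]; simp
  have hz : ∀ i, p < i → i ≤ q → z i ∈ CA := by
    intro i hi hi'
    rw [memA]
    refine ⟨fun b hb => ?_, y i, ?_, (hH i i (by omega) (by omega)).2 le_rfl⟩
    · by_contra hn
      exact c1 q b i hq3 (by omega) hn hi' hb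
    · rw [memB]
      refine ⟨(hH q i (by omega) (by omega)).2 hi', fun h => ?_⟩
      have := (hH p i (by omega) (by omega)).1 h
      omega
  have hy : ∀ i, p < i → i ≤ q → y i ∈ CB := by
    intro i hi hi'
    rw [memB]
    refine ⟨(hH q i (by omega) (by omega)).2 hi', fun h => ?_⟩
    have := (hH p i (by omega) (by omega)).1 h
    omega
  have hctx : Ctx k R W CA CB (z p) (z q) (z r) (y o) ((Finset.Ioc q r).image y)
      ((Finset.Icc o p).image z) := by
    refine ⟨hT, ?_, ?_, ?_, ?_, ?_, ?_, ?_, ?_, ?_, ?_, ?_, memB, memA, ?_, ?_⟩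
    · intro b hb
      by_contra hn
      exact c1 q b p hq3 (by omega) hn (by omega) hb
    · intro b hb
      by_contra hn
      exact c1 r b q hr3 (by omega) hn (by omega) hb
    · rw [card_image_of_injOn, Nat.card_Ioc]
      · omega
      · intro a ha c hc' h
        simp only [coe_Ioc, Set.mem_Ioc] at ha hc'
        exact y_inj hH (by omega) (by omega) h
    · intro x hx
      rw [mem_image] at hx
      obtain ⟨j, hj, rfl⟩ := hx
      rw [mem_Ioc] at hj
      exact (hH r j (by omega) (by omega)).2 hj.2
    · intro x hx h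
      rw [mem_image] at hx
      obtain ⟨j, hj, rfl⟩ := hx
      rw [mem_Ioc] at hj
      have := (hH q j (by omega) (by omega)).1 h
      omega
    · rw [card_image_of_injOn, Nat.card_Icc]
      · omega
      · intro a ha c hc' h
        simp only [coe_Icc, Set.mem_Icc] at ha hc'
        exact z_inj hH (by omega) (by omega) h
    · intro x hx
      rw [mem_image] at hx
      obtain ⟨j, hj, rfl⟩ := hx
      rw [mem_Icc] at hj
      exact (hH j o (by omega) (by omega)).2 hj.1
    · intro b hb x hx
      rw [mem_image] at hx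
      obtain ⟨j, hj, rfl⟩ := hx
      rw [mem_Icc] at hj
      exact c1 p b j hp3 (by omega) hb hj.2
    · exact (hH p o (by omega) (by omega)).2 (by omega)
    · intro a ha x hx
      rw [mem_image] at hx
      obtain ⟨j, hj, rfl⟩ := hx
      rw [mem_Ioc] at hj
      exact c2 o a j ho3' (by omega) ha (by omega) (by omega)
    · refine ⟨y r, (hH r r (by omega) (by omega)).2 le_rfl, fun h => ?_⟩
      have := (hH q r (by omega) (by omega)).1 h
      omega
    · refine ⟨z (p + 1), z (p + 2), y (p + 1), y (p + 2), hz _ (by omega) (by omega),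
        hz _ (by omega) (by omega), hy _ (by omega) (by omega), hy _ (by omega) (by omega),
        (hH _ _ (by omega) (by omega)).2 le_rfl, fun h => ?_, fun h => ?_⟩
      · have := (hH (p + 1) (p + 2) (by omega) (by omega)).1 h
        omega
      · have := z_inj hH (by omega) (by omega) h
        omega
    · exact hz q (by omega) le_rfl
  exact ⟨CA, CB, _, hctx.mrg⟩


theorem degq (k N : ℕ) : ∀ (L : Type) [Fintype L] (R : L → L → Prop) (W : L → Prop),
    TriG k R W → ¬ Half R N →
    (∀ y y', y ≠ y' → ¬ W y → ¬ W y' → (∃ x, R x y) → (∀ x, R x y ↔ R x y') → False) →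
    ∀ c, (univ.filter fun y => R c y).card ≤ 3 * (4 * k + 2 ^ (2 * N + 1)) := by
  intro L _ R W hT hN htw c
  have hCl : Cl1 k R := by
    have := (hT.cls ∅ (by simp)).1
    have e : Res R ∅ = R := by
      funext u v
      simp [Res]
    rwa [e] at this
  set X := univ.filter fun y => R c y with hX
  set Nf : L → Finset L := fun y => univ.filter fun x => R x y with hNf
  have memN : ∀ x y, x ∈ Nf y ↔ R x y := by
    intro x y; simp [hNf]
  have hfib : ∀ b ∈ X.image Nf, (X.filter fun a => Nf a = b).card ≤ 3 := by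
    intro b hb
    set F := X.filter fun a => Nf a = b with hF
    have hFm : ∀ y, y ∈ F ↔ R c y ∧ Nf y = b := by
      intro y; simp [hF, hX]
    have hsame : ∀ y ∈ F, ∀ y' ∈ F, ∀ x, R x y ↔ R x y' := by
      intro y hy y' hy' x
      rw [← memN, ← memN, ((hFm y).1 hy).2, ((hFm y').1 hy').2]
    have h1 : (F.filter fun y => ¬ W y).card ≤ 1 := by
      rw [Finset.card_le_one]
      intro y hy y' hy'
      rw [Finset.mem_filter] at hy hy'
      by_contra hne
      exact htw y y' hne hy.2 hy'.2 ⟨c, ((hFm y).1 hy.1).1⟩ (hsame y hy.1 y' hy'.1)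
    have h2 : (F.filter fun y => W y).card ≤ 2 := by
      by_contra hcon
      have h3c : 2 < (F.filter fun y => W y).card := by omega
      obtain ⟨y1, y2, y3, hy1, hy2, hy3, h12, h13, h23⟩ := Finset.two_lt_card_iff.1 h3c
      rw [Finset.mem_filter] at hy1 hy2 hy3
      have hR : ∀ y ∈ F, W y → ∀ y' ∈ F, R y y' := by
        intro y hy hW y' hy'
        rw [← hsame y hy y' hy' y]
        exact (hT.diag y).2 hW
      have hcl := (hT.cls {y1, y2, y3} (by
        intro u hu
        simp only [Finset.mem_insert, Finset.mem_singleton] at hu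
        rcases hu with rfl | rfl | rfl
        · exact hy1.2
        · exact hy2.2
        · exact hy3.2)).1
      apply hcl.hex y1 y2 y3 y1 y2 y3
      · intro h; exact h.2 ⟨rfl, by simp⟩
      · exact ⟨hR y1 hy1.1 hy1.2 y2 hy2.1, fun h => h12 h.1⟩
      · exact ⟨hR y1 hy1.1 hy1.2 y3 hy3.1, fun h => h13 h.1⟩
      · exact ⟨hR y2 hy2.1 hy2.2 y1 hy1.1, fun h => h12 h.1.symm⟩
      · intro h; exact h.2 ⟨rfl, by simp⟩
      · exact ⟨hR y2 hy2.1 hy2.2 y3 hy3.1, fun h => h23 h.1⟩
      · exact ⟨hR y3 hy3.1 hy3.2 y1 hy1.1, fun h => h13 h.1.symm⟩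
      · exact ⟨hR y3 hy3.1 hy3.2 y2 hy2.1, fun h => h23 h.1.symm⟩
      · intro h; exact h.2 ⟨rfl, by simp⟩
    have h3 := Finset.card_filter_add_card_filter_not (s := F) (fun y => W y)
    omega
  have hmain : X.card ≤ 3 * (X.image Nf).card :=
    Finset.card_le_mul_card_image X 3 hfib
  set T : L → Finset (Finset L) := fun z => (X.image Nf).filter fun S => z ∉ S with hTd
  have memT : ∀ z S, S ∈ T z ↔ S ∈ X.image Nf ∧ z ∉ S := by
    intro z S; simp [hTd]
  have rep : ∀ S ∈ X.image Nf, ∃ y, R c y ∧ ∀ z, R z y ↔ z ∈ S := by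
    intro S hS
    rw [Finset.mem_image] at hS
    obtain ⟨y, hy, rfl⟩ := hS
    refine ⟨y, ?_, fun z => (memN z y).symm⟩
    simpa [hX] using hy
  have hb : (X.image Nf).card ≤ 4 * k + 2 ^ (2 * N + 1) := by
    apply deg_fam k N (X.image Nf) (univ.image T)
    · intro A hA
      rw [Finset.mem_image] at hA
      obtain ⟨z, _, rfl⟩ := hA
      exact Finset.filter_subset _ _
    · intro A hA B hB hAB hBA
      rw [Finset.mem_image] at hA hB
      obtain ⟨z1, _, rfl⟩ := hA
      obtain ⟨z2, _, rfl⟩ := hB
      obtain ⟨S2, hS2, hS2'⟩ := Finset.not_subset.1 hAB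
      obtain ⟨S1, hS1, hS1'⟩ := Finset.not_subset.1 hBA
      rw [memT] at hS1 hS1' hS2 hS2'
      obtain ⟨y1, hc1, hy1⟩ := rep S1 hS1.1
      obtain ⟨y2, hc2, hy2⟩ := rep S2 hS2.1
      have hex : ∀ S : Finset L, ∃ y, S ∈ X.image Nf → R c y ∧ ∀ z, R z y ↔ z ∈ S := by
        intro S
        by_cases hS : S ∈ X.image Nf
        · obtain ⟨y, hy⟩ := rep S hS
          exact ⟨y, fun _ => hy⟩
        · exact ⟨c, fun h => absurd h hS⟩
      choose g hg using hex
      have hcard : ((T z1 ∩ T z2).image g).card = (T z1 ∩ T z2).card := by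
        apply Finset.card_image_of_injOn
        intro S hS S' hS' hgg
        rw [Finset.mem_coe, Finset.mem_inter, memT, memT] at hS hS'
        ext z
        rw [← (hg S hS.1.1).2 z, ← (hg S' hS'.1.1).2 z, hgg]
      rw [← hcard]
      apply hCl.pat c z1 z2 y1 y2 _ hc1 hc2
      · rw [hy1]
        by_contra hcon
        exact hS1' ⟨hS1.1, hcon⟩
      · rw [hy2]; exact hS2.2
      · rw [hy2]
        by_contra hcon
        exact hS2' ⟨hS2.1, hcon⟩
      · rw [hy1]; exact hS1.2
      · intro x hx
        rw [Finset.mem_image] at hx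
        obtain ⟨S, hS, rfl⟩ := hx
        rw [Finset.mem_inter, memT, memT] at hS
        refine ⟨(hg S hS.1.1).1, ?_, ?_⟩
        · rw [(hg S hS.1.1).2]; exact hS.1.2
        · rw [(hg S hS.1.1).2]; exact hS.2.2
    · intro A hA B hB C hC h1 h2 h3
      rw [Finset.mem_image] at hA hB hC
      obtain ⟨z1, _, rfl⟩ := hA
      obtain ⟨z2, _, rfl⟩ := hB
      obtain ⟨z3, _, rfl⟩ := hC
      obtain ⟨S1, hS1, hS1'⟩ := Finset.not_subset.1 h1
      obtain ⟨S2, hS2, hS2'⟩ := Finset.not_subset.1 h2
      obtain ⟨S3, hS3, hS3'⟩ := Finset.not_subset.1 h3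
      rw [Finset.mem_union, memT, memT] at hS1' hS2' hS3'
      rw [memT] at hS1 hS2 hS3
      obtain ⟨y1, hc1, hy1⟩ := rep S1 hS1.1
      obtain ⟨y2, hc2, hy2⟩ := rep S2 hS2.1
      obtain ⟨y3, hc3, hy3⟩ := rep S3 hS3.1
      push Not at hS1' hS2' hS3'
      apply hCl.hex z1 z2 z3 y1 y2 y3
      · rw [hy1]; exact hS1.2
      · rw [hy2]; exact hS2'.1 hS2.1
      · rw [hy3]; exact hS3'.1 hS3.1
      · rw [hy1]; exact hS1'.1 hS1.1
      · rw [hy2]; exact hS2.2
      · rw [hy3]; exact hS3'.2 hS3.1
      · rw [hy1]; exact hS1'.2 hS1.1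
      · rw [hy2]; exact hS2'.2 hS2.1
      · rw [hy3]; exact hS3.2
    · intro S hS S' hS' hh
      ext z
      have h1 := hh (T z) (Finset.mem_image_of_mem _ (Finset.mem_univ z))
      rw [memT, memT] at h1
      constructor
      · intro h
        by_contra hcon
        exact (h1.2 ⟨hS', hcon⟩).2 h
      · intro h
        by_contra hcon
        exact (h1.1 ⟨hS, hcon⟩).2 h
    · rintro ⟨A, x, hA, hx, hiff⟩
      apply hN
      have hz : ∀ i, ∃ z, i < N → T z = A i := by
        intro i
        by_cases hi : i < N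
        · obtain ⟨z, _, hz⟩ := Finset.mem_image.1 (hA i hi)
          exact ⟨z, fun _ => hz⟩
        · exact ⟨c, fun h => absurd h hi⟩
      have hy : ∀ j, ∃ y, j < N → ∀ z, R z y ↔ z ∈ x j := by
        intro j
        by_cases hj : j < N
        · obtain ⟨y, _, hy⟩ := rep (x j) (hx j hj)
          exact ⟨y, fun _ => hy⟩
        · exact ⟨c, fun h => absurd h hj⟩
      choose zz hzz using hz
      choose yy hyy using hy
      refine ⟨zz, yy, ?_⟩
      intro i j hi hj
      rw [hyy j hj, ← hiff i j hi hj, ← hzz i hi, memT]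
      have := hx j hj
      tauto
  omega


open Pool.Agent.H175R2 Pool.Agent.H73R2.Iv

open Bfs in
theorem bfsq (Δ : ℕ) : ∀ (V N : Type) [Fintype V] [Fintype N] (G : SimpleGraph V)
    (Γ : SimpleGraph N) (ν : V → N) (un : N → N) (K0 : ℕ), 2 ^ (2 * (1 + Δ) ^ 4) + 2 * (1 + Δ) ^ 4 ≤ K0 →
    (∀ v v', un (ν v) ≠ un (ν v') → (G.Adj v v' ↔ Γ.Adj (ν v) (ν v'))) →
    (∀ u, DT0 G K0 (univ.filter fun v => un (ν v) = u)) →
    (∀ x y, x ≠ y → un x = un y → Γ.Adj x y) →
    (∀ x y z, un x = un y → un y = un z → x = y ∨ y = z ∨ x = z) →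
    (∀ x, (univ.filter fun y => Γ.Adj x y).card ≤ Δ) →
    (∀ n, 5 ≤ n → ¬ (SimpleGraph.cycleGraph n).IsIndContained Γ) →
    DT0 G K0 univ := by
  intro V N _ _ G Γ ν un K0 hK hG hfib hun hu2 hΔ hc
  obtain ⟨root, lev, hL⟩ := exists_lv Γ
  have claim : ∀ n i, (∀ z, lev z < i + n) → ∀ x, i ≤ lev x →
      DT0 G K0 (VV ν un (cpt Γ (univ.filter fun z => i ≤ lev z) x)) := by
    intro n
    induction n with
    | zero =>
      intro i hi x hx
      have := hi x
      omega
    | succ n ih =>
      intro i hi x hx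
      exact step_claim hL hK hG hfib hun hu2 hΔ hc i
        (ih (i + 1) (fun z => by have := hi z; omega)) x hx
  have hmax : ∀ z, lev z < 0 + (univ.sup lev + 1) := by
    intro z
    have : lev z ≤ univ.sup lev := le_sup (mem_univ z)
    omega
  have h0 := claim _ 0 hmax
  have e0 : (univ.filter fun z => 0 ≤ lev z) = (univ : Finset N) := by
    ext z; simp
  rw [e0] at h0
  have h1 := dt0_closed (G := G) (Γ := Γ) (ν := ν) (un := un) (K0 := K0) hun univ univ
    (Subset.refl _) (fun x _ => h0 x (Nat.zero_le _)) ?_ univ (Subset.refl _)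
    (fun _ _ => subset_univ _)
  · have e1 : VV ν un (univ : Finset N) = (univ : Finset V) := by
      ext v; simp [mem_VV]
    rwa [e1] at h1
  · intro S _ hcl
    have hpos : 1 ≤ K0 := by
      have : 1 ≤ 2 ^ (2 * (1 + Δ) ^ 4) := Nat.one_le_two_pow
      omega
    refine (tr_le_one ?_).trans hpos
    have hno : ∀ v ∈ VV ν un S, ∀ w ∈ univ \ VV ν un S, ¬ G.Adj v w := by
      intro v hv w hw hvw
      have hw' : w ∉ VV ν un S := (mem_sdiff.1 hw).2
      have hne : un (ν v) ≠ un (ν w) := by
        intro h
        apply hw'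
        rw [mem_VV] at hv ⊢
        intro z hz
        exact hv z (by rw [hz, h])
      rw [hG v w hne] at hvw
      have hwS : ν w ∈ S := closed_adj hcl (subset_univ _) (node_mem hv) (mem_univ _) hvw
      apply hw'
      rw [mem_VV]
      intro z hz
      by_cases hzw : z = ν w
      · rw [hzw]; exact hwS
      · exact closed_adj hcl (subset_univ _) hwS (mem_univ _) (hun z (ν w) hzw hz).symm
    intro v hv v' hv' w hw
    exact iff_of_false (hno v hv w hw) (hno v' hv' w hw)


variable {V : Type} [Fintype V]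

/-- degree bound -/
def Dt (t : ℕ) : ℕ := 3 * (4 * t + 2 ^ (2 * (10 * t + 3) + 1))
/-- width bound -/
def Kt (t : ℕ) : ℕ := 2 ^ (2 * (1 + Dt t) ^ 4) + 2 * (1 + Dt t) ^ 4

theorem dt_univq (t : ℕ) (ht : 1 ≤ t) : ∀ (V : Type) [Fintype V] (G : SimpleGraph V),
    IsChordalBipartite G → ¬ (E t).IsIndContained G → DT0 G (max (Kt t) 2) univ := by
  have hN := strq t ht
  have hD := degq t (10 * t + 3)
  have hK := bfsq (Dt t)
  change ∀ (L : Type) [Fintype L] (R : L → L → Prop) (W : L → Prop),
    TriG t R W → ¬ Half R (10 * t + 3) →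
    (∀ y y', y ≠ y' → ¬ W y → ¬ W y' → (∃ x, R x y) → (∀ x, R x y ↔ R x y') → False) →
    ∀ c, (univ.filter fun y => R c y).card ≤ Dt t at hD
  change ∀ (V N : Type) [Fintype V] [Fintype N] (G : SimpleGraph V)
    (Γ : SimpleGraph N) (ν : V → N) (un : N → N) (K0 : ℕ), Kt t ≤ K0 →
    (∀ v v', un (ν v) ≠ un (ν v') → (G.Adj v v' ↔ Γ.Adj (ν v) (ν v'))) →
    (∀ u, DT0 G K0 (univ.filter fun v => un (ν v) = u)) →
    (∀ x y, x ≠ y → un x = un y → Γ.Adj x y) →
    (∀ x y z, un x = un y → un y = un z → x = y ∨ y = z ∨ x = z) →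
    (∀ x, (univ.filter fun y => Γ.Adj x y).card ≤ Dt t) →
    (∀ n, 5 ≤ n → ¬ (SimpleGraph.cycleGraph n).IsIndContained Γ) →
    DT0 G K0 univ at hK
  generalize Kt t = K at *
  generalize Dt t = D at *
  generalize 10 * t + 3 = N at *
  intro V _ G hG hE
  obtain ⟨⟨c⟩, hcyc⟩ := hG
  -- the 2-colouring
  let side : V → Bool := fun v => decide (c v = 0)
  have hs : Side G side := by
    intro a b hab h
    have := c.valid hab
    simp only [side, decide_eq_decide] at h
    omega
  have hex : ∃ n, ∃ f : V → V, Units G side (max K 2) f ∧ (univ.image f).card = n :=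
    ⟨_, id, Units.id G side _, rfl⟩
  obtain ⟨f, hU, hf⟩ := Nat.find_spec hex
  have hmin : ∀ f' : V → V, Units G side (max K 2) f' →
      ¬ (univ.image f').card < (univ.image f).card := by
    intro f' hU' hlt
    rw [hf] at hlt
    exact Nat.find_min hex hlt ⟨f', hU', rfl⟩
  have hT := real t ht G side hs (hcyc 6 le_rfl) hE _ f hU
  have hnh : ¬ Half (RR G side f) N := by
    intro hh
    obtain ⟨CA, CB, κ, hM⟩ := hN V _ _ hT hh
    obtain ⟨f', h1, h2⟩ := merge G side hs _ (le_max_right _ _) f hU CA CB κ hM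
    exact hmin f' h1 h2
  have hd1 : ∀ c, (univ.filter fun y => RR G side f c y).card ≤ D := by
    refine hD V _ _ hT hnh ?_
    intro y y' hne hy hy' hex htw
    obtain ⟨f', h1, h2⟩ := mergeTwin G side hs _ (le_max_right _ _) f hU y y' hne hy hy' hex htw
    exact hmin f' h1 h2
  have hd2 : ∀ c, (univ.filter fun y => RR G side f y c).card ≤ D := by
    refine hD V (fun a b => RR G side f b a) _ hT.flip (fun h => hnh h.flip) ?_
    intro y y' hne hy hy' hex htw
    obtain ⟨f', h1, h2⟩ := mergeTwin G (fun v => !side v) hs.flip _ (le_max_right _ _) f hU.flip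
      y y' hne (fun h => hy ((WW_flip _).1 h)) (fun h => hy' ((WW_flip _).1 h))
      (by obtain ⟨x, hx⟩ := hex; exact ⟨x, (RR_flip _ _).2 hx⟩)
      (fun x => by rw [RR_flip, RR_flip]; exact htw x)
    have h1' := h1.flip
    simp only [Bool.not_not] at h1'
    exact hmin f' h1' h2
  refine hK V (V × Bool) G (Q G side f) (fun v => (f v, side v))
    (fun x => if WW side f x.1 then (x.1, true) else x) (max K 2) (le_max_left _ _) ?_ ?_ ?_ ?_ ?_ ?_
  · intro v v' hne
    constructor
    · intro hadj
      have h1 := hs v v' hadj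
      cases hv : side v
      · have hv' : side v' = true := by
          rw [hv] at h1; revert h1; cases side v' <;> simp
        exact Or.inr ⟨rfl, hv', v', v, rfl, rfl, hv', hv, hadj.symm⟩
      · have hv' : side v' = false := by
          rw [hv] at h1; revert h1; cases side v' <;> simp
        exact Or.inl ⟨rfl, hv', v, v', rfl, rfl, hv, hv', hadj⟩
    · intro hadj
      have key : ∀ v v' : V, side v = true → side v' = false → f v ≠ f v' →
          RR G side f (f v) (f v') → G.Adj v v' := by
        rintro v v' hv hv' hne ⟨a, b, ha, hb, ha', hb', hab⟩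
        have h1 : G.Adj a v' := (hU.bim a b v' (by rw [ha, hb]; exact hne) hb
          (by rw [hb', hv'])).1 hab
        exact ((hU.bim v' a v (by rw [ha]; exact hne.symm) ha (by rw [ha', hv])).1 h1.symm).symm
      have hfne : f v ≠ f v' := by
        intro he
        apply hne
        have hW : WW side f (f v) := by
          rcases hadj with ⟨h1, h2, _⟩ | ⟨h1, h2, _⟩
          · exact ⟨v, v', rfl, he.symm, h1, h2⟩
          · exact ⟨v', v, he.symm, rfl, h2, h1⟩
        have hW' : WW side f (f v') := he ▸ hW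
        simp only [hW, hW', if_true]
        rw [he]
      rcases hadj with ⟨h1, h2, h3⟩ | ⟨h1, h2, h3⟩
      · exact key v v' h1 h2 hfne h3
      · exact (key v' v h2 h1 hfne.symm h3).symm
  · rintro ⟨u, b⟩
    refine (?_ : ∀ S : Finset V, (∀ v, v ∈ S ↔ (if WW side f (f v) then (f v, true)
      else (f v, side v)) = (u, b)) → DT0 G (max K 2) S) _ (fun v => by simp [mem_filter])
    intro S hS
    by_cases hW : WW side f u
    · cases b
      · left
        ext v
        simp only [hS, notMem_empty, iff_false]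
        intro h
        split_ifs at h with h1
        · simp at h
        · simp only [Prod.mk.injEq] at h
          rw [h.1] at h1
          exact h1 hW
      · have : S = univ.filter fun v => f v = u := by
          ext v
          simp only [hS, mem_filter, mem_univ, true_and]
          constructor
          · intro h
            split_ifs at h with h1
            · simpa using h
            · simp only [Prod.mk.injEq] at h
              exact h.1
          · intro h
            rw [h]
            simp [hW]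
        rw [this]
        exact hU.dt u
    · by_cases hn : ∃ v, f v = u ∧ side v = b
      · obtain ⟨v0, hv0, hv0'⟩ := hn
        have : S = univ.filter fun v => f v = u := by
          ext v
          simp only [hS, mem_filter, mem_univ, true_and]
          constructor
          · intro h
            split_ifs at h with h1
            · simp only [Prod.mk.injEq] at h
              rw [h.1] at h1
              exact absurd h1 hW
            · simp only [Prod.mk.injEq] at h
              exact h.1
          · intro h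
            rw [h]
            simp only [hW, if_false, Prod.mk.injEq, true_and]
            by_contra hne
            apply hW
            cases hv : side v
            · rw [hv] at hne
              have hb : b = true := by revert hne; cases b <;> simp
              exact ⟨v0, v, hv0, h, by rw [hv0', hb], hv⟩
            · rw [hv] at hne
              have hb : b = false := by revert hne; cases b <;> simp
              exact ⟨v, v0, h, hv0, hv, by rw [hv0', hb]⟩
        rw [this]
        exact hU.dt u
      · left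
        ext v
        simp only [hS, notMem_empty, iff_false]
        intro h
        split_ifs at h with h1
        · simp only [Prod.mk.injEq] at h
          rw [h.1] at h1
          exact hW h1
        · simp only [Prod.mk.injEq] at h
          exact hn ⟨v, h.1, h.2⟩
  · rintro ⟨u, b⟩ ⟨u', b'⟩ hne h
    simp only at h
    by_cases hW : WW side f u
    · by_cases hW' : WW side f u'
      · simp only [hW, hW', if_true, Prod.mk.injEq, and_true] at h
        subst h
        have hr := (hT.diag u).2 hW
        have hb : b ≠ b' := fun hb => hne (by rw [hb])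
        cases b
        · have : b' = true := by revert hb; cases b' <;> simp
          subst this
          exact Or.inr ⟨rfl, rfl, hr⟩
        · have : b' = false := by revert hb; cases b' <;> simp
          subst this
          exact Or.inl ⟨rfl, rfl, hr⟩
      · simp only [hW, hW', if_true, if_false, Prod.mk.injEq] at h
        exact absurd (h.1 ▸ hW) hW'
    · by_cases hW' : WW side f u'
      · simp only [hW, hW', if_true, if_false, Prod.mk.injEq] at h
        exact absurd (h.1 ▸ hW') hW
      · simp only [hW, hW', if_false] at h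
        exact absurd h hne
  · rintro ⟨u, b⟩ ⟨u', b'⟩ ⟨u'', b''⟩ h h'
    have e1 : u = u' := by
      simp only at h
      split_ifs at h <;> simp only [Prod.mk.injEq] at h <;> exact h.1
    have e2 : u' = u'' := by
      simp only at h'
      split_ifs at h' <;> simp only [Prod.mk.injEq] at h' <;> exact h'.1
    subst e1 e2
    simp only [Prod.mk.injEq, true_and]
    cases b <;> cases b' <;> cases b'' <;> simp
  · rintro ⟨u, b⟩
    cases b
    · refine le_trans ?_ (hd2 u)
      refine Finset.card_le_card_of_injOn Prod.fst ?_ ?_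
      · rintro ⟨v, b'⟩ hv
        simp only [coe_filter, mem_univ, true_and, Set.mem_ofPred_eq] at hv ⊢
        rcases hv with ⟨h1, _⟩ | ⟨_, _, h3⟩
        · exact absurd h1 (by simp)
        · exact h3
      · rintro ⟨v, b'⟩ hv ⟨v', b''⟩ hv' h
        simp only [coe_filter, mem_univ, true_and, Set.mem_ofPred_eq] at hv hv' h
        rcases hv with ⟨h1, _⟩ | ⟨_, h2, h3⟩
        · exact absurd h1 (by simp)
        · rcases hv' with ⟨h1, _⟩ | ⟨_, h2', h3'⟩
          · exact absurd h1 (by simp)
          · simp only at h2 h2'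
            rw [h, h2, h2']
    · refine le_trans ?_ (hd1 u)
      refine Finset.card_le_card_of_injOn Prod.fst ?_ ?_
      · rintro ⟨v, b'⟩ hv
        simp only [coe_filter, mem_univ, true_and, Set.mem_ofPred_eq] at hv ⊢
        rcases hv with ⟨_, _, h3⟩ | ⟨h1, _⟩
        · exact h3
        · exact absurd h1 (by simp)
      · rintro ⟨v, b'⟩ hv ⟨v', b''⟩ hv' h
        simp only [coe_filter, mem_univ, true_and, Set.mem_ofPred_eq] at hv hv' h
        rcases hv with ⟨_, h2, h3⟩ | ⟨h1, _⟩
        · rcases hv' with ⟨_, h2', h3'⟩ | ⟨h1, _⟩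
          · simp only at h2 h2'
            rw [h, h2, h2']
          · exact absurd h1 (by simp)
        · exact absurd h1 (by simp)
  · rintro n hn ⟨g⟩
    obtain ⟨ρ, hρ1, hρ2⟩ := exists_rep hU
    have hnode : ∀ x y, (Q G side f).Adj x y → ∃ v, f v = x.1 ∧ side v = x.2 := by
      rintro x y (⟨h1, h2, a, b, ha, hb, ha', hb', _⟩ | ⟨h1, h2, a, b, ha, hb, ha', hb', _⟩)
      · exact ⟨a, ha, by rw [ha', h1]⟩
      · exact ⟨b, hb, by rw [hb', h1]⟩
    have hall : ∀ i, ∃ v, f v = (g i).1 ∧ side v = (g i).2 := by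
      intro i
      haveI : NeZero n := ⟨by omega⟩
      have hadj : (SimpleGraph.cycleGraph n).Adj i (i + 1) := by
        obtain ⟨m, rfl⟩ : ∃ m, n = m + 2 := ⟨n - 2, by omega⟩
        rw [SimpleGraph.cycleGraph_adj]
        right
        simp
      exact hnode _ _ (g.map_rel_iff.2 hadj)
    have hcont : (SimpleGraph.cycleGraph n).IsIndContained G := by
      refine ⟨⟨⟨fun i => ρ (g i), ?_⟩, ?_⟩⟩
      · intro i j hij
        have h1 := hρ1 _ (hall i)
        have h2 := hρ1 _ (hall j)
        apply g.injective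
        simp only at hij
        rw [hij] at h1
        exact Prod.ext (h1.1.symm.trans h2.1) (h1.2.symm.trans h2.2)
      · intro i j
        exact (adj_of_Q hs hU hρ1 hρ2 _ _ (hall i) (hall j)).trans g.map_rel_iff
    rcases Nat.lt_or_ge n 6 with h | h
    · have : n = 5 := by omega
      subst this
      exact no_c5 hs hcont
    · exact hcyc n h hcont


theorem mainq (t : ℕ) (ht : 1 ≤ t) : ∀ (V : Type) [Finite V] (G : SimpleGraph V),
    IsChordalBipartite G → ¬ (E t).IsIndContained G → cliqueWidth G ≤ 3 * (max (Kt t) 2 + 1) := by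
  have hK := dt_univq t ht
  intro V _ G hG hE
  have := Fintype.ofFinite V
  rcases hK V G hG hE with h | h
  · have hV : ¬ Nonempty V := by
      rintro ⟨v⟩
      have : v ∈ (univ : Finset V) := mem_univ v
      rw [h] at this
      simp at this
    rw [cliqueWidth_empty' hV]
    exact Nat.zero_le _
  · exact cliqueWidth_le_of_dt h


end Pool.Agent.Y942.ET
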